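import Mathlib
import Pool.Agent.Y467.SF.Main

set_option autoImplicit false

/-! Images of block filters under coordinatewise surjective multiplicative maps. -/

namespace Pool.Agent.Y467.TF

open Pool.Agent.H829R3

variable {F K : Type*} [Field F] [Field K]

/-- `φ` applied to all coefficients. -/
noncomputable def pf (φ : F →*₀ K) (v : ℕ →₀ F) : ℕ →₀ K := v.mapRange φ (map_zero φ)

theorem pf_apply (φ : F →*₀ K) (v : ℕ →₀ F) (t : ℕ) : pf φ v t = φ (v t) := rfl

theorem pf_supp (φ : F →*₀ K) (v : ℕ →₀ F) : (pf φ v).support = v.support := by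
  ext t
  rw [Finsupp.mem_support_iff, Finsupp.mem_support_iff, pf_apply]
  exact map_ne_zero φ

theorem pf_ne_zero (φ : F →*₀ K) {v : ℕ →₀ F} : pf φ v ≠ 0 ↔ v ≠ 0 := by
  rw [← Finsupp.support_nonempty_iff, ← Finsupp.support_nonempty_iff, pf_supp]

theorem pf_block (φ : F →*₀ K) {X : ℕ → (ℕ →₀ F)} (hX : IsBlock X) :
    IsBlock (fun n => pf φ (X n)) := by
  intro n
  refine ⟨(pf_ne_zero φ).2 (hX n).1, ?_⟩
  intro i hi j hj
  rw [pf_supp] at hi hj
  exact (hX n).2 i hi j hj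

theorem lc_apply_out {X : ℕ → (ℕ →₀ F)} (c : ℕ →₀ F) {t : ℕ}
    (ht : ∀ n, t ∉ (X n).support) : (Finsupp.linearCombination F X c) t = 0 := by
  rw [Finsupp.linearCombination_apply, Finsupp.sum, Finsupp.finsetSum_apply]
  apply Finset.sum_eq_zero
  intro n _
  have : X n t = 0 := by simpa using ht n
  simp [this]

theorem pf_lc (φ : F →*₀ K) {X : ℕ → (ℕ →₀ F)} (hX : IsBlock X) (c : ℕ →₀ F) :
    pf φ (Finsupp.linearCombination F X c) =
      Finsupp.linearCombination K (fun n => pf φ (X n)) (pf φ c) := by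
  ext t
  rw [pf_apply]
  by_cases h : ∃ n, t ∈ (X n).support
  · obtain ⟨n, hn⟩ := h
    rw [lc_apply hX c hn, lc_apply (pf_block φ hX) (pf φ c) (n := n)
      (by rw [pf_supp]; exact hn), map_mul, pf_apply, pf_apply]
  · push Not at h
    rw [lc_apply_out c h, lc_apply_out (X := fun n => pf φ (X n)) (pf φ c)
      (fun n => by rw [pf_supp]; exact h n), map_zero]

/-- lifting of coefficients -/
theorem exists_lift {φ : F →*₀ K} (hφ : Function.Surjective φ) (c : ℕ →₀ K) :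
    ∃ d : ℕ →₀ F, pf φ d = c := by
  classical
  choose ψ hψ using hφ
  let ψ' : K → F := fun x => if x = 0 then 0 else ψ x
  have h0 : ψ' 0 = 0 := by simp [ψ']
  refine ⟨c.mapRange ψ' h0, ?_⟩
  ext t
  rw [pf_apply, Finsupp.mapRange_apply]
  by_cases h : c t = 0
  · rw [h, h0, map_zero]
  · simp only [ψ']
    rw [if_neg h, hψ]

theorem pf_mem {φ : F →*₀ K} {X : ℕ → (ℕ →₀ F)} (hX : IsBlock X) {v : ℕ →₀ F}
    (hv : v ∈ sp X) : pf φ v ∈ sp (fun n => pf φ (X n)) := by
  obtain ⟨c, hc⟩ := mem_span_iff_lc.1 hv.1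
  refine ⟨?_, (pf_ne_zero φ).2 hv.2⟩
  rw [SetLike.mem_coe, mem_span_iff_lc]
  exact ⟨pf φ c, by rw [← hc, pf_lc φ hX]⟩

theorem lift_mem {φ : F →*₀ K} (hφ : Function.Surjective φ) {X : ℕ → (ℕ →₀ F)}
    (hX : IsBlock X) {w : ℕ →₀ K} (hw : w ∈ sp (fun n => pf φ (X n))) :
    ∃ v ∈ sp X, pf φ v = w := by
  obtain ⟨c, hc⟩ := mem_span_iff_lc.1 hw.1
  obtain ⟨d, hd⟩ := exists_lift hφ c
  have h1 : pf φ (Finsupp.linearCombination F X d) = w := by
    rw [pf_lc φ hX, hd, hc]
  refine ⟨_, ⟨?_, ?_⟩, h1⟩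
  · rw [SetLike.mem_coe, mem_span_iff_lc]
    exact ⟨d, rfl⟩
  · have h2 : pf φ (Finsupp.linearCombination F X d) ≠ 0 := by
      rw [h1]
      exact hw.2
    exact (pf_ne_zero φ).1 h2

/-- An infinite-dimensional subspace contains nonzero vectors beyond any bound. -/
theorem exists_far {V : Submodule F (ℕ →₀ F)} (hV : ¬ FiniteDimensional F V) (N : ℕ) :
    ∃ v ∈ V, v ≠ 0 ∧ ∀ t ∈ v.support, N ≤ t := by
  by_contra hcon
  push Not at hcon
  apply hV
  let L : V →ₗ[F] (Fin N → F) :=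
    (LinearMap.pi (fun i : Fin N => (Finsupp.lapply (i : ℕ) : (ℕ →₀ F) →ₗ[F] F))).comp V.subtype
  have hinj : Function.Injective L := by
    rw [injective_iff_map_eq_zero]
    intro v hv
    by_contra hne
    have hne' : (v : ℕ →₀ F) ≠ 0 := by
      intro h
      apply hne
      ext1
      exact h
    obtain ⟨t, ht, htN⟩ := hcon v v.2 hne'
    have h1 := congrFun hv ⟨t, htN⟩
    simp only [L, LinearMap.comp_apply, LinearMap.pi_apply, Submodule.subtype_apply,
      Finsupp.lapply_apply, Pi.zero_apply] at h1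
    exact (Finsupp.mem_support_iff.1 ht) h1
  exact FiniteDimensional.of_injective L hinj

/-- An infinite-dimensional subspace contains a block sequence. -/
theorem exists_block {V : Submodule F (ℕ →₀ F)} (hV : ¬ FiniteDimensional F V) :
    ∃ w : ℕ → (ℕ →₀ F), IsBlock w ∧ ∀ n, w n ∈ V := by
  choose f hf1 hf2 hf3 using exists_far hV
  obtain ⟨w, hw⟩ : ∃ w : ℕ → (ℕ →₀ F), ∀ n, w (n+1) = f (SF.hm (w n) + 1) ∧ w 0 = f 0 :=
    ⟨fun n => Nat.rec (f 0) (fun _ v => f (SF.hm v + 1)) n, fun _ => ⟨rfl, rfl⟩⟩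
  have hwf : ∀ n, ∃ m, w n = f m := by
    intro n
    cases n with
    | zero => exact ⟨0, (hw 0).2⟩
    | succ n => exact ⟨_, (hw n).1⟩
  refine ⟨w, ?_, ?_⟩
  · intro n
    refine ⟨?_, ?_⟩
    · obtain ⟨m, hm⟩ := hwf n
      rw [hm]
      exact hf2 m
    · intro i hi j hj
      rw [(hw n).1] at hj
      have h1 := hf3 _ j hj
      have h2 := SF.hm_le _ i hi
      omega
  · intro n
    obtain ⟨m, hm⟩ := hwf n
    rw [hm]
    exact hf1 m

/-- The image of a full filter with a block base is full. -/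
theorem push_full {φ : F →*₀ K} (hφ : Function.Surjective φ) {𝓕 : Filter (ℕ →₀ F)}
    (hfull : Full 𝓕) : Full (𝓕.map (pf φ)) := by
  intro D hD
  rw [Filter.mem_map]
  apply hfull
  intro X hX hX𝓕
  have hXb : IsBlock X := hX
  have hX𝓕' : sp X ∈ 𝓕 := hX𝓕
  obtain ⟨V, hV, hVX, hVD⟩ := hD (fun n => pf φ (X n)) (pf_block φ hXb) (by
    rw [Filter.mem_map]
    exact Filter.mem_of_superset hX𝓕' (fun v hv => pf_mem hXb hv))
  obtain ⟨w, hw, hwV⟩ := exists_block hV
  choose z hz hzw using fun n => lift_mem hφ hXb (hVX ⟨hwV n, (hw n).1⟩)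
  have hzb : IsBlock z := by
    intro n
    refine ⟨(hz n).2, ?_⟩
    intro i hi j hj
    rw [← pf_supp φ, hzw] at hi hj
    exact (hw n).2 i hi j hj
  refine ⟨Submodule.span F (Set.range z), hzb.not_finiteDimensional, ?_, ?_⟩
  · rintro v ⟨hv, hv0⟩
    refine ⟨?_, hv0⟩
    have h1 : Submodule.span F (Set.range z) ≤ Submodule.span F (Set.range X) := by
      rw [Submodule.span_le]
      rintro _ ⟨n, rfl⟩
      exact (hz n).1
    exact h1 hv
  · intro v hv
    have h1 := pf_mem (φ := φ) hzb (v := v) hv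
    apply hVD
    refine ⟨?_, h1.2⟩
    have h2 : Submodule.span K (Set.range fun n => pf φ (z n)) ≤ V := by
      rw [Submodule.span_le]
      rintro _ ⟨n, rfl⟩
      show pf φ (z n) ∈ V
      rw [hzw]
      exact hwV n
    exact h2 h1.1

/-- The image of a filter with a block base has a block base. -/
theorem push_base {φ : F →*₀ K} (hφ : Function.Surjective φ) {𝓕 : Filter (ℕ →₀ F)}
    (hbase : BlockBase 𝓕) : BlockBase (𝓕.map (pf φ)) := by
  intro A hA
  rw [Filter.mem_map] at hA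
  obtain ⟨X, hX, hX𝓕, hXA⟩ := hbase _ hA
  have hXb : IsBlock X := hX
  refine ⟨fun n => pf φ (X n), pf_block φ hXb, ?_, ?_⟩
  · rw [Filter.mem_map]
    exact Filter.mem_of_superset hX𝓕 (fun v hv => pf_mem hXb hv)
  · intro w hw
    obtain ⟨v, hv, rfl⟩ := lift_mem hφ hXb hw
    exact hXA hv

/-- A full filter with a block base contains all finite-codimensional subspaces. -/
theorem cofin_of_full {𝓕 : Filter (ℕ →₀ F)} (hfull : Full 𝓕) : Cofin 𝓕 := by
  intro V hV
  apply hfull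
  intro X hX _
  have hXb : IsBlock X := hX
  refine ⟨Submodule.span F (Set.range X) ⊓ V, ?_, ?_, ?_⟩
  · intro hfin
    apply hXb.not_finiteDimensional
    rw [← Submodule.fg_iff_finiteDimensional] at hfin ⊢
    apply Submodule.fg_of_fg_map_of_fg_inf_ker V.mkQ
    · exact IsNoetherian.noetherian _
    · rw [Submodule.ker_mkQ]
      exact hfin
  · rintro v ⟨hv, hv0⟩
    exact ⟨hv.1, hv0⟩
  · rintro v ⟨hv, hv0⟩
    exact ⟨hv.2, hv0⟩

end Pool.Agent.Y467.TF
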