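import Mathlib
import Pool.Agent.Y467.TF.Push
import Pool.Agent.Helper555.Tau.P_finite_unions

set_option autoImplicit false

/-! Supports of the members of a full block filter: a stable ordered-union ultrafilter. -/

namespace Pool.Agent.Y467.TF

open Pool.Agent.H829R3

variable {F : Type*} [Field F]

/-- finite unions -/
def FU (A : ℕ → Finset ℕ) : Set (Finset ℕ) := {s | ∃ I : Finset ℕ, I.Nonempty ∧ s = I.biUnion A}

/-- block sequences of finite sets -/
def FinBlock (A : ℕ → Finset ℕ) : Prop :=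
  ∀ n, (A n).Nonempty ∧ ∀ i ∈ A n, ∀ j ∈ A (n + 1), i < j

theorem supp_lc {X : ℕ → (ℕ →₀ F)} (hX : IsBlock X) (c : ℕ →₀ F) :
    (Finsupp.linearCombination F X c).support = c.support.biUnion (fun n => (X n).support) := by
  ext t
  rw [Finset.mem_biUnion, Finsupp.mem_support_iff]
  constructor
  · intro h
    by_cases h1 : ∃ n, t ∈ (X n).support
    · obtain ⟨n, hn⟩ := h1
      refine ⟨n, ?_, hn⟩
      rw [Finsupp.mem_support_iff]
      intro h2
      apply h
      rw [lc_apply hX c hn, h2, zero_mul]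
    · push Not at h1
      exact absurd (lc_apply_out c h1) h
  · rintro ⟨n, hn, ht⟩
    rw [lc_apply hX c ht]
    exact mul_ne_zero (Finsupp.mem_support_iff.1 hn) (Finsupp.mem_support_iff.1 ht)

theorem supp_mem_FU {X : ℕ → (ℕ →₀ F)} (hX : IsBlock X) {v : ℕ →₀ F} (hv : v ∈ sp X) :
    v.support ∈ FU (fun n => (X n).support) := by
  obtain ⟨c, hc⟩ := mem_span_iff_lc.1 hv.1
  refine ⟨c.support, ?_, ?_⟩
  · rw [Finsupp.support_nonempty_iff]
    rintro rfl
    apply hv.2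
    rw [← hc, map_zero]
    rfl
  · rw [← hc, supp_lc hX]

theorem FU_mem_supp {X : ℕ → (ℕ →₀ F)} (hX : IsBlock X) {s : Finset ℕ}
    (hs : s ∈ FU (fun n => (X n).support)) : ∃ v ∈ sp X, v.support = s := by
  classical
  obtain ⟨I, hI, rfl⟩ := hs
  let c : ℕ →₀ F := Finsupp.indicator I (fun _ _ => 1)
  have hc : c.support = I := by
    ext n
    rw [Finsupp.mem_support_iff]
    by_cases hn : n ∈ I
    · simp [c, hn]
    · simp [c, hn]
  have h1 : (Finsupp.linearCombination F X c).support = I.biUnion (fun n => (X n).support) := by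
    rw [supp_lc hX, hc]
  refine ⟨_, ⟨?_, ?_⟩, h1⟩
  · rw [SetLike.mem_coe, mem_span_iff_lc]
    exact ⟨c, rfl⟩
  · intro h0
    have h0' : Finsupp.linearCombination F X c = 0 := h0
    obtain ⟨n, hn⟩ := hI
    obtain ⟨t, ht⟩ := hX.supp_nonempty n
    have h2 : t ∈ (Finsupp.linearCombination F X c).support := by
      rw [h1]
      exact Finset.mem_biUnion.2 ⟨n, hn, ht⟩
    rw [h0', Finsupp.support_zero] at h2
    exact absurd h2 (Finset.notMem_empty t)

/-- Hindman's theorem below a block sequence. -/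
theorem hindman_below {Z : ℕ → (ℕ →₀ F)} (hZ : IsBlock Z) (S : Set (Finset ℕ)) :
    ∃ v : ℕ → (ℕ →₀ F), IsBlock v ∧ sp v ⊆ sp Z ∧
      ((∀ x ∈ sp v, x.support ∈ S) ∨ (∀ x ∈ sp v, x.support ∈ Sᶜ)) := by
  classical
  obtain ⟨G, hG1, hG2, b, hG3⟩ := Tau555.finite_unions
    (fun I : Finset ℕ => (decide (I.biUnion (fun n => (Z n).support) ∈ S) : Bool))
  let v : ℕ → (ℕ →₀ F) := fun i => ∑ j ∈ G i, Z j
  have hvlc : ∀ i, ∃ c : ℕ →₀ F, c.support = G i ∧ v i = Finsupp.linearCombination F Z c := by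
    intro i
    let c : ℕ →₀ F := Finsupp.indicator (G i) (fun _ _ => 1)
    have hc : c.support = G i := by
      ext n
      rw [Finsupp.mem_support_iff]
      by_cases hn : n ∈ G i
      · simp [c, hn]
      · simp [c, hn]
    refine ⟨c, hc, ?_⟩
    rw [Finsupp.linearCombination_apply, Finsupp.sum, hc]
    apply Finset.sum_congr rfl
    intro j hj
    have : c j = 1 := by simp [c, hj]
    rw [this, one_smul]
  have hvs : ∀ i, (v i).support = (G i).biUnion (fun n => (Z n).support) := by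
    intro i
    obtain ⟨c, hc1, hc2⟩ := hvlc i
    rw [hc2, supp_lc hZ, hc1]
  have hvb : IsBlock v := by
    intro n
    refine ⟨?_, ?_⟩
    · rw [← Finsupp.support_nonempty_iff, hvs]
      obtain ⟨j, hj⟩ := hG1 n
      obtain ⟨t, ht⟩ := hZ.supp_nonempty j
      exact ⟨t, Finset.mem_biUnion.2 ⟨j, hj, ht⟩⟩
    · intro i hi j hj
      rw [hvs, Finset.mem_biUnion] at hi hj
      obtain ⟨a, ha, hia⟩ := hi
      obtain ⟨b, hb, hjb⟩ := hj
      exact hZ.lt (hG2 n a ha b hb) i hia j hjb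
  refine ⟨v, hvb, ?_, ?_⟩
  · rintro x ⟨hx, hx0⟩
    refine ⟨?_, hx0⟩
    have h1 : Submodule.span F (Set.range v) ≤ Submodule.span F (Set.range Z) := by
      rw [Submodule.span_le]
      rintro _ ⟨n, rfl⟩
      obtain ⟨c, _, hc2⟩ := hvlc n
      rw [SetLike.mem_coe, mem_span_iff_lc]
      exact ⟨c, hc2.symm⟩
    exact h1 hx
  · have hcol : ∀ x ∈ sp v, ∃ I : Finset ℕ, I.Nonempty ∧
        x.support = (I.biUnion G).biUnion (fun n => (Z n).support) := by
      intro x hx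
      obtain ⟨I, hI, hxI⟩ := supp_mem_FU hvb hx
      refine ⟨I, hI, ?_⟩
      rw [hxI]
      ext t
      simp only [Finset.mem_biUnion, hvs]
      constructor
      · rintro ⟨a, ha, b, hb, ht⟩
        exact ⟨b, ⟨a, ha, hb⟩, ht⟩
      · rintro ⟨b, ⟨a, ha, hb⟩, ht⟩
        exact ⟨a, ha, b, hb, ht⟩
    cases b with
    | true =>
      left
      intro x hx
      obtain ⟨I, hI, hxI⟩ := hcol x hx
      have := hG3 I hI
      rw [hxI]
      exact of_decide_eq_true this
    | false =>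
      right
      intro x hx
      obtain ⟨I, hI, hxI⟩ := hcol x hx
      have := hG3 I hI
      rw [hxI]
      exact of_decide_eq_false this

/-- The supports of the members of a full block filter form an ultrafilter. -/
theorem supp_ultra {𝓕 : Filter (ℕ →₀ F)} (hbase : BlockBase 𝓕) (hfull : Full 𝓕)
    (S : Set (Finset ℕ)) : (fun v : ℕ →₀ F => v.support) ⁻¹' S ∈ 𝓕 ∨
      (fun v : ℕ →₀ F => v.support) ⁻¹' Sᶜ ∈ 𝓕 := by
  by_cases h : (fun v : ℕ →₀ F => v.support) ⁻¹' S ∈ 𝓕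
  · exact Or.inl h
  · right
    have h1 : ∃ X : ℕ → (ℕ →₀ F), IsBlock X ∧ sp X ∈ 𝓕 ∧ ∀ V : Submodule F (ℕ →₀ F),
        ¬ FiniteDimensional F V → ((V : Set (ℕ →₀ F)) \ {0}) ⊆ sp X →
        ¬ ((V : Set (ℕ →₀ F)) \ {0}) ⊆ (fun v : ℕ →₀ F => v.support) ⁻¹' S := by
      by_contra hcon
      push Not at hcon
      apply h
      apply hfull
      intro X hX hX𝓕
      obtain ⟨V, h1, h2, h3⟩ := hcon X hX hX𝓕
      exact ⟨V, h1, h2, h3⟩
    obtain ⟨X, hX, hX𝓕, hXV⟩ := h1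
    apply hfull
    intro Y hY hY𝓕
    have hY𝓕' : sp Y ∈ 𝓕 := hY𝓕
    obtain ⟨Z, hZ, _, hZs⟩ := hbase _ (Filter.inter_mem hX𝓕 hY𝓕')
    obtain ⟨v, hv, hvZ, hvS⟩ := hindman_below (Z := Z) hZ S
    refine ⟨Submodule.span F (Set.range v), hv.not_finiteDimensional, ?_, ?_⟩
    · exact fun x hx => (hZs (hvZ hx)).2
    · rcases hvS with h2 | h2
      · exfalso
        exact hXV _ hv.not_finiteDimensional (fun x hx => (hZs (hvZ hx)).1) (fun x hx => h2 x hx)
      · exact fun x hx => h2 x hx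

/-- The base. -/
theorem supp_base {𝓕 : Filter (ℕ →₀ F)} (hbase : BlockBase 𝓕) {S : Set (Finset ℕ)}
    (hS : (fun v : ℕ →₀ F => v.support) ⁻¹' S ∈ 𝓕) :
    ∃ A, FinBlock A ∧ (fun v : ℕ →₀ F => v.support) ⁻¹' (FU A) ∈ 𝓕 ∧ FU A ⊆ S := by
  obtain ⟨X, hX, hX𝓕, hXS⟩ := hbase _ hS
  have hXb : IsBlock X := hX
  refine ⟨fun n => (X n).support, ?_, ?_, ?_⟩
  · intro n
    exact ⟨hXb.supp_nonempty n, (hXb n).2⟩
  · exact Filter.mem_of_superset hX𝓕 (fun v hv => supp_mem_FU hXb hv)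
  · intro s hs
    obtain ⟨v, hv, rfl⟩ := FU_mem_supp hXb hs
    exact hXS hv

end Pool.Agent.Y467.TF
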