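import Mathlib
import Pool.Agent.Y467.TF.Supp

set_option autoImplicit false

/-! Over a field with more than two elements every block subspace contains a block subspace
avoiding a given set of vectors with pairwise different supports. -/

namespace Pool.Agent.Y467.TF

open Pool.Agent.H829R3

variable {F : Type*} [Field F]

/-- moves defined by recursion on the history -/
theorem exists_rec {M : Type*} (step : List M → M) :
    ∃ f : ℕ → M, ∀ n, f n = step (List.ofFn (fun i : Fin n => f i)) := by
  let h : ℕ → List M := fun n => Nat.rec [] (fun _ l => l ++ [step l]) n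
  have h0 : h 0 = [] := rfl
  have h1 : ∀ n, h (n + 1) = h n ++ [step (h n)] := fun n => rfl
  refine ⟨fun n => step (h n), ?_⟩
  have key : ∀ n, List.ofFn (fun i : Fin n => step (h i)) = h n := by
    intro n
    induction n with
    | zero => simp [h0]
    | succ n ih =>
      rw [List.ofFn_succ', h1, List.concat_eq_append]
      congr 1
  intro n
  rw [key]

/-- the `n`-th block of indices -/
def bl (n : ℕ) : Finset ℕ := Finset.Ico (2 ^ (n+1)) (2 ^ (n+2))

/-- coefficients -/
noncomputable def cf (α : F) (n : ℕ) (T : Finset ℕ) : ℕ →₀ F :=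
  Finsupp.indicator (bl n) (fun j _ => if j ∈ T then α else 1)

theorem cf_mem {α : F} {n : ℕ} {T : Finset ℕ} {j : ℕ} (hj : j ∈ bl n) :
    cf α n T j = if j ∈ T then α else 1 := by
  unfold cf
  rw [Finsupp.indicator_of_mem hj]

theorem cf_supp {α : F} (h0 : α ≠ 0) (n : ℕ) (T : Finset ℕ) : (cf α n T).support = bl n := by
  ext j
  rw [Finsupp.mem_support_iff]
  constructor
  · intro h
    by_contra hj
    apply h
    unfold cf
    rw [Finsupp.indicator_of_notMem hj]
  · intro hj
    rw [cf_mem hj]
    split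
    · exact h0
    · exact one_ne_zero

/-- the vectors -/
noncomputable def vs (α : F) (X : ℕ → (ℕ →₀ F)) (τ : ℕ → Finset ℕ) (n : ℕ) : ℕ →₀ F :=
  Finsupp.linearCombination F X (cf α n (τ n))

theorem vs_supp {α : F} (h0 : α ≠ 0) {X : ℕ → (ℕ →₀ F)} (hX : IsBlock X) (τ : ℕ → Finset ℕ)
    (n : ℕ) : (vs α X τ n).support = (bl n).biUnion (fun j => (X j).support) := by
  unfold vs
  rw [supp_lc hX, cf_supp h0]

theorem vs_block {α : F} (h0 : α ≠ 0) {X : ℕ → (ℕ →₀ F)} (hX : IsBlock X) (τ : ℕ → Finset ℕ) :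
    IsBlock (vs α X τ) := by
  intro n
  refine ⟨?_, ?_⟩
  · rw [← Finsupp.support_nonempty_iff, vs_supp h0 hX]
    obtain ⟨t, ht⟩ := hX.supp_nonempty (2 ^ (n+1))
    refine ⟨t, Finset.mem_biUnion.2 ⟨2 ^ (n+1), ?_, ht⟩⟩
    unfold bl
    rw [Finset.mem_Ico]
    exact ⟨le_rfl, Nat.pow_lt_pow_right (by norm_num) (Nat.lt_succ_self _)⟩
  · intro i hi j hj
    rw [vs_supp h0 hX, Finset.mem_biUnion] at hi hj
    obtain ⟨a, ha, hia⟩ := hi
    obtain ⟨b, hb, hjb⟩ := hj
    unfold bl at ha hb
    rw [Finset.mem_Ico] at ha hb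
    exact hX.lt (lt_of_lt_of_le ha.2 hb.1) i hia j hjb

theorem vs_apply {α : F} {X : ℕ → (ℕ →₀ F)} (hX : IsBlock X) (τ : ℕ → Finset ℕ)
    {n j t : ℕ} (hj : j ∈ bl n) (ht : t ∈ (X j).support) :
    vs α X τ n t = (if j ∈ τ n then α else 1) * X j t := by
  unfold vs
  rw [lc_apply hX _ ht, cf_mem hj]

/-- the sequence of sets with initial part `l`, then `T` -/
def ext (l : List (Finset ℕ)) (T : Finset ℕ) : ℕ → Finset ℕ :=
  fun i => if i < l.length then l.getD i ∅ else T

theorem ext_step {α : F} (h0 : α ≠ 0) (h1 : α ≠ 1) {C : Set (ℕ →₀ F)}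
    (hC : ∀ c ∈ C, ∀ c' ∈ C, c.support = c'.support → c = c') {X : ℕ → (ℕ →₀ F)}
    (hX : IsBlock X) (l : List (Finset ℕ)) :
    ∃ T : Finset ℕ, ∀ a : ℕ →₀ F, a.support ⊆ Finset.range (l.length + 1) → a l.length ≠ 0 →
      Finsupp.linearCombination F (vs α X (ext l T)) a ∉ C := by
  classical
  by_contra hcon
  push Not at hcon
  set n := l.length with hn
  choose a ha1 ha2 ha3 using hcon
  let s : Finset (Finset ℕ) := (Finset.Ioo (2 ^ (n+1)) (2 ^ (n+2))).powerset
  let t : Finset (Finset ℕ) := (Finset.range n).powerset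
  have hcard : t.card < s.card := by
    simp only [s, t, Finset.card_powerset, Finset.card_range, Nat.card_Ioo]
    apply Nat.pow_lt_pow_right (by norm_num)
    have h2 : n + 1 < 2 ^ (n+1) := Nat.lt_two_pow_self
    have h3 : 2 ^ (n+2) = 2 * 2 ^ (n+1) := by ring
    omega
  obtain ⟨T, hT, T', hT', hne, he⟩ := Finset.exists_ne_map_eq_of_card_lt_of_maps_to hcard
    (f := fun T => (a T).support.erase n) (by
      intro T _
      simp only [t, Finset.coe_powerset, Set.mem_preimage, Set.mem_powerset_iff]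
      intro i hi
      rw [Finset.mem_coe, Finset.mem_erase] at hi
      have h2 := Finset.mem_range.1 (ha1 T hi.2)
      rw [Finset.mem_coe, Finset.mem_range]
      omega)
  apply hne
  have hmem : ∀ T, n ∈ (a T).support := fun T => Finsupp.mem_support_iff.2 (ha2 T)
  have hsupp : (a T).support = (a T').support := by
    rw [← Finset.insert_erase (hmem T), ← Finset.insert_erase (hmem T')]
    have he' : (a T).support.erase n = (a T').support.erase n := he
    rw [he']
  have hs2 : (Finsupp.linearCombination F (vs α X (ext l T)) (a T)).support =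
      (Finsupp.linearCombination F (vs α X (ext l T')) (a T')).support := by
    rw [supp_lc (vs_block h0 hX _), supp_lc (vs_block h0 hX _), hsupp]
    congr 1
    funext i
    rw [vs_supp h0 hX, vs_supp h0 hX]
  have heq := hC _ (ha3 T) _ (ha3 T') hs2
  have hval : ∀ j ∈ bl n, a T n * (if j ∈ T then α else 1) = a T' n * (if j ∈ T' then α else 1) := by
    intro j hj
    obtain ⟨x, hx⟩ := hX.supp_nonempty j
    have hx' : ∀ τ : ℕ → Finset ℕ, x ∈ (vs α X τ n).support := by
      intro τ
      rw [vs_supp h0 hX]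
      exact Finset.mem_biUnion.2 ⟨j, hj, hx⟩
    have h2 := DFunLike.congr_fun heq x
    rw [lc_apply (vs_block h0 hX _) _ (hx' _), lc_apply (vs_block h0 hX _) _ (hx' _),
      vs_apply hX _ hj hx, vs_apply hX _ hj hx, ← mul_assoc, ← mul_assoc] at h2
    have h3 := mul_right_cancel₀ (Finsupp.mem_support_iff.1 hx) h2
    have e1 : ext l T n = T := by
      unfold ext
      rw [if_neg (by omega)]
    have e2 : ext l T' n = T' := by
      unfold ext
      rw [if_neg (by omega)]
    rwa [e1, e2] at h3
  have hT2 : T ⊆ Finset.Ioo (2 ^ (n+1)) (2 ^ (n+2)) := Finset.mem_powerset.1 hT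
  have hT2' : T' ⊆ Finset.Ioo (2 ^ (n+1)) (2 ^ (n+2)) := Finset.mem_powerset.1 hT'
  have hfirst : a T n = a T' n := by
    have hj : 2 ^ (n+1) ∈ bl n := by
      unfold bl
      rw [Finset.mem_Ico]
      exact ⟨le_rfl, Nat.pow_lt_pow_right (by norm_num) (Nat.lt_succ_self _)⟩
    have h2 := hval _ hj
    have hn1 : 2 ^ (n+1) ∉ T := fun h => by
      have := (Finset.mem_Ioo.1 (hT2 h)).1
      omega
    have hn2 : 2 ^ (n+1) ∉ T' := fun h => by
      have := (Finset.mem_Ioo.1 (hT2' h)).1
      omega
    rwa [if_neg hn1, if_neg hn2, mul_one, mul_one] at h2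
  ext j
  by_cases hj : j ∈ Finset.Ioo (2 ^ (n+1)) (2 ^ (n+2))
  · have hjb : j ∈ bl n := by
      unfold bl
      rw [Finset.mem_Ico]
      rw [Finset.mem_Ioo] at hj
      exact ⟨hj.1.le, hj.2⟩
    have h2 := hval j hjb
    rw [hfirst] at h2
    have h3 := mul_left_cancel₀ (ha2 T') h2
    by_cases hjT : j ∈ T
    · by_cases hjT' : j ∈ T'
      · exact ⟨fun _ => hjT', fun _ => hjT⟩
      · rw [if_pos hjT, if_neg hjT'] at h3
        exact absurd h3 h1
    · by_cases hjT' : j ∈ T'
      · rw [if_neg hjT, if_pos hjT'] at h3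
        exact absurd h3.symm h1
      · exact ⟨fun h => absurd h hjT, fun h => absurd h hjT'⟩
  · exact ⟨fun h => absurd (hT2 h) hj, fun h => absurd (hT2' h) hj⟩

theorem avoid_block {α : F} (h0 : α ≠ 0) (h1 : α ≠ 1) {C : Set (ℕ →₀ F)}
    (hC : ∀ c ∈ C, ∀ c' ∈ C, c.support = c'.support → c = c') {X : ℕ → (ℕ →₀ F)}
    (hX : IsBlock X) : ∃ v : ℕ → (ℕ →₀ F), IsBlock v ∧ sp v ⊆ sp X ∧ ∀ x ∈ sp v, x ∉ C := by
  classical
  choose step hstep using ext_step h0 h1 hC hX
  obtain ⟨f, hf⟩ := exists_rec step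
  refine ⟨vs α X f, vs_block h0 hX f, ?_, ?_⟩
  · rintro x ⟨hx, hx0⟩
    refine ⟨?_, hx0⟩
    have h2 : Submodule.span F (Set.range (vs α X f)) ≤ Submodule.span F (Set.range X) := by
      rw [Submodule.span_le]
      rintro _ ⟨n, rfl⟩
      rw [SetLike.mem_coe, mem_span_iff_lc]
      exact ⟨_, rfl⟩
    exact h2 hx
  · rintro x ⟨hx, hx0⟩
    obtain ⟨a, rfl⟩ := mem_span_iff_lc.1 hx
    have ha : a.support.Nonempty := by
      rw [Finsupp.support_nonempty_iff]
      rintro rfl
      apply hx0
      rw [map_zero]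
      rfl
    set n := a.support.max' ha with hn
    have hna : a n ≠ 0 := Finsupp.mem_support_iff.1 (a.support.max'_mem ha)
    have hsub : a.support ⊆ Finset.range (n + 1) := by
      intro i hi
      rw [Finset.mem_range]
      exact Nat.lt_succ_of_le (a.support.le_max' i hi)
    have h2 := hstep (List.ofFn (fun i : Fin n => f i)) a (by rw [List.length_ofFn]; exact hsub)
      (by rw [List.length_ofFn]; exact hna)
    rw [← hf n] at h2
    have h3 : Finsupp.linearCombination F (vs α X (ext (List.ofFn (fun i : Fin n => f i)) (f n))) a =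
        Finsupp.linearCombination F (vs α X f) a := by
      rw [Finsupp.linearCombination_apply, Finsupp.linearCombination_apply, Finsupp.sum,
        Finsupp.sum]
      apply Finset.sum_congr rfl
      intro i hi
      have hin := Finset.mem_range.1 (hsub hi)
      have h4 : ext (List.ofFn (fun i : Fin n => f i)) (f n) i = f i := by
        unfold ext
        rw [List.length_ofFn]
        split
        · rename_i hlt
          rw [List.getD_eq_getElem _ _ (by simpa using hlt)]
          simp
        · have : i = n := by omega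
          rw [this]
      unfold vs
      rw [h4]
    rwa [h3] at h2

end Pool.Agent.Y467.TF
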