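import Mathlib
import Pool.Agent.Y467.TF.Supp
import Pool.Agent.Y467.SF.Local

set_option autoImplicit false

/-! Diagonalization for stable ordered-union ultrafilters. -/

namespace Pool.Agent.Y467.TF

open Pool.Agent.H829R3

/-- members of `A` from the `k`-th on -/
def tl (A : ℕ → Finset ℕ) (k : ℕ) : ℕ → Finset ℕ := fun n => A (n + k)

theorem FinBlock.lt {A : ℕ → Finset ℕ} (hA : FinBlock A) {m n : ℕ} (h : m < n) :
    ∀ i ∈ A m, ∀ j ∈ A n, i < j := by
  induction n, h using Nat.le_induction with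
  | base => exact (hA m).2
  | succ n hmn ih =>
    intro i hi j hj
    obtain ⟨k, hk⟩ := (hA n).1
    exact lt_trans (ih i hi k hk) ((hA n).2 k hk j hj)

theorem FinBlock.le_mem {A : ℕ → Finset ℕ} (hA : FinBlock A) (n : ℕ) :
    ∀ t ∈ A n, n ≤ t := by
  induction n with
  | zero => intro t _; exact Nat.zero_le t
  | succ n ih =>
    intro t ht
    obtain ⟨k, hk⟩ := (hA n).1
    have h1 := ih k hk
    have h2 := (hA n).2 k hk t ht
    omega

theorem FinBlock.tl {A : ℕ → Finset ℕ} (hA : FinBlock A) (k : ℕ) : FinBlock (tl A k) := by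
  intro n
  refine ⟨(hA (n+k)).1, ?_⟩
  have := (hA (n+k)).2
  have h2 : n + 1 + k = n + k + 1 := by ring
  simpa [TF.tl, h2] using this

/-- the `F₂`-vector with given support -/
noncomputable def vec (s : Finset ℕ) : ℕ →₀ ZMod 2 := Finsupp.indicator s (fun _ _ => 1)

theorem vec_supp (s : Finset ℕ) : (vec s).support = s := by
  ext n
  rw [Finsupp.mem_support_iff]
  by_cases hn : n ∈ s
  · simp [vec, hn]
  · simp [vec, hn]

theorem vec_of (v : ℕ →₀ ZMod 2) : vec v.support = v := by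
  ext n
  by_cases hn : n ∈ v.support
  · have h1 : v n ≠ 0 := Finsupp.mem_support_iff.1 hn
    have h2 : v n = 1 := Fin.eq_one_of_ne_zero (v n) h1
    rw [h2]
    simp only [vec]
    rw [Finsupp.indicator_of_mem hn]
  · have h1 : v n = 0 := by simpa using hn
    rw [h1]
    simp only [vec]
    rw [Finsupp.indicator_of_notMem hn]

theorem vec_block {A : ℕ → Finset ℕ} (hA : FinBlock A) : IsBlock (fun n => vec (A n)) := by
  intro n
  refine ⟨?_, ?_⟩
  · rw [← Finsupp.support_nonempty_iff, vec_supp]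
    exact (hA n).1
  · intro i hi j hj
    rw [vec_supp] at hi hj
    exact (hA n).2 i hi j hj

/-- The filter on the `F₂`-vector space. -/
noncomputable def toF2 (𝒰 : Filter (Finset ℕ)) : Filter (ℕ →₀ ZMod 2) := 𝒰.map vec

theorem mem_toF2 {𝒰 : Filter (Finset ℕ)} {D : Set (ℕ →₀ ZMod 2)} :
    D ∈ toF2 𝒰 ↔ vec ⁻¹' D ∈ 𝒰 := Iff.rfl

theorem vec_mem_sp {A : ℕ → Finset ℕ} (hA : FinBlock A) (s : Finset ℕ) :
    vec s ∈ sp (fun n => vec (A n)) ↔ s ∈ FU A := by
  have hb := vec_block hA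
  have h0 : FU (fun n => (vec (A n)).support) = FU A := by
    congr 1
    funext n
    exact vec_supp _
  constructor
  · intro h
    have := supp_mem_FU hb h
    rwa [vec_supp, h0] at this
  · intro h
    rw [← h0] at h
    obtain ⟨v, hv, hvs⟩ := FU_mem_supp hb h
    rw [← hvs, vec_of]
    exact hv

/-- The diagonalization property of stable ordered-union ultrafilters. -/
theorem diag {𝒰 : Ultrafilter (Finset ℕ)}
    (hbase : ∀ S ∈ 𝒰, ∃ A, FinBlock A ∧ FU A ∈ 𝒰 ∧ FU A ⊆ S)
    (hstab : ∀ As : ℕ → ℕ → Finset ℕ, (∀ m, FinBlock (As m) ∧ FU (As m) ∈ 𝒰) →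
      ∃ B, FinBlock B ∧ FU B ∈ 𝒰 ∧ ∀ m, ∃ k, ∀ n, k ≤ n → B n ∈ FU (As m))
    (R : List (Finset ℕ) → Set (Finset ℕ)) (hR : ∀ l, R l ∈ 𝒰) :
    ∃ A, FinBlock A ∧ FU A ∈ 𝒰 ∧
      ∀ k, FU (tl A k) ⊆ R (List.ofFn (fun i : Fin k => A i.val)) := by
  classical
  -- the filter over `F₂`
  have hB : BlockBase (toF2 𝒰) := by
    intro D hD
    obtain ⟨A, hA, hA𝒰, hAD⟩ := hbase _ (mem_toF2.1 hD)
    have h1 : sp (fun n => vec (A n)) ∈ toF2 𝒰 := by
      rw [mem_toF2]
      exact Filter.mem_of_superset hA𝒰 (fun s hs => (vec_mem_sp hA s).2 hs)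
    refine ⟨fun n => vec (A n), vec_block hA, h1, ?_⟩
    intro v hv
    have h2 : vec v.support ∈ sp (fun n => vec (A n)) := by rw [vec_of]; exact hv
    have h3 := hAD ((vec_mem_sp hA _).1 h2)
    have h4 : vec v.support ∈ D := h3
    rwa [vec_of] at h4
  have hmeet : ∀ S ∈ 𝒰, S.Nonempty := fun S hS => 𝒰.nonempty_of_mem hS
  have hF : Full (toF2 𝒰) := by
    intro D hD
    rw [mem_toF2]
    by_contra hcon
    have h1 : (vec ⁻¹' D)ᶜ ∈ 𝒰 := Ultrafilter.compl_mem_iff_notMem.2 hcon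
    obtain ⟨A, hA, hA𝒰, hAD⟩ := hbase _ h1
    obtain ⟨V, hV, hVX, hVD⟩ := hD (fun n => vec (A n)) (vec_block hA) (by
      rw [mem_toF2]
      exact Filter.mem_of_superset hA𝒰 (fun s hs => (vec_mem_sp hA s).2 hs))
    obtain ⟨w, hw, hwV⟩ := exists_block hV
    have h2 : w 0 ∈ D := hVD ⟨hwV 0, (hw 0).1⟩
    have h3 : vec (w 0).support ∈ sp (fun n => vec (A n)) := by
      rw [vec_of]
      exact hVX ⟨hwV 0, (hw 0).1⟩
    have h4 := hAD ((vec_mem_sp hA _).1 h3)
    apply h4
    show vec (w 0).support ∈ D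
    rw [vec_of]
    exact h2
  have hcof : Cofin (toF2 𝒰) := cofin_of_full hF
  have hP : PProp (toF2 𝒰) := by
    intro Xs hXs
    have hXb : ∀ m, IsBlock (Xs m) := fun m => (hXs m).1
    have h0 : ∀ m, FinBlock (fun n => (Xs m n).support) := fun m n =>
      ⟨(hXb m).supp_nonempty n, (hXb m n).2⟩
    have h1 : ∀ m s, s ∈ FU (fun n => (Xs m n).support) ↔ vec s ∈ sp (Xs m) := by
      intro m s
      have := vec_mem_sp (h0 m) s
      have h2 : (fun n => vec ((Xs m n).support)) = Xs m := by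
        funext n
        exact vec_of _
      rw [h2] at this
      exact this.symm
    obtain ⟨B, hB1, hB2, hB3⟩ := hstab (fun m n => (Xs m n).support) (fun m => by
      refine ⟨h0 m, ?_⟩
      have h2 := mem_toF2.1 (hXs m).2
      exact Filter.mem_of_superset h2 (fun s hs => (h1 m s).2 hs))
    refine ⟨fun n => vec (B n), vec_block hB1, ?_, ?_⟩
    · show sp (fun n => vec (B n)) ∈ toF2 𝒰
      rw [mem_toF2]
      exact Filter.mem_of_superset hB2 (fun s hs => (vec_mem_sp hB1 s).2 hs)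
    · intro m
      obtain ⟨k, hk⟩ := hB3 m
      refine ⟨k, ?_⟩
      rw [Submodule.span_le]
      rintro _ ⟨n, rfl⟩
      exact ((h1 m _).1 (hk (n + k) (Nat.le_add_left _ _))).1
  have hst : SF.StrongP (toF2 𝒰) := SF.strongP_of_tails hB
    (strong_of_gap hcof hP (gapProp hB hF))
  -- choose block sequences inside `R`
  choose V hV hV𝒰 hVR using fun l => hbase _ (hR l)
  obtain ⟨U, hU, hU𝒰, hUs⟩ := SF.strong_tails hst
    (fun l => fun n => vec (V (l.map (fun v : ℕ →₀ ZMod 2 => v.support)) n))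
    (fun l => by
      rw [mem_toF2]
      exact Filter.mem_of_superset (hV𝒰 _) (fun s hs => (vec_mem_sp (hV _) s).2 hs))
  have hUf : ∀ n, vec (U n).support = U n := fun n => vec_of _
  have hA : FinBlock (fun n => (U n).support) := fun n => ⟨hU.supp_nonempty n, (hU n).2⟩
  refine ⟨fun n => (U n).support, hA, ?_, ?_⟩
  · have h1 := mem_toF2.1 hU𝒰
    refine Filter.mem_of_superset h1 (fun s hs => ?_)
    have h2 : vec s ∈ sp U := hs
    have h3 := supp_mem_FU hU h2
    rwa [vec_supp] at h3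
  · intro k s hs
    have h1 : vec s ∈ sp (fun n => U (n + k)) := by
      have h2 : (fun n => vec (tl (fun n => (U n).support) k n)) = fun n => U (n + k) := by
        funext n
        exact vec_of _
      rw [← h2]
      exact (vec_mem_sp (hA.tl k) s).2 hs
    have h3 := hUs k h1
    have h4 := (vec_mem_sp (hV _) s).1 h3
    have h5 := hVR _ h4
    rw [List.map_ofFn] at h5
    exact h5

end Pool.Agent.Y467.TF
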