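import Mathlib
import Pool.Agent.Y467.TF.Union

set_option autoImplicit false

/-! Iterated ultrafilter quantifiers for ordered-union ultrafilters. -/

namespace Pool.Agent.Y467.TF

open Pool.Agent.H829R3 Filter

/-- stable ordered-union ultrafilters -/
structure SOU (𝒰 : Ultrafilter (Finset ℕ)) : Prop where
  base : ∀ S ∈ 𝒰, ∃ A, FinBlock A ∧ FU A ∈ 𝒰 ∧ FU A ⊆ S
  stab : ∀ As : ℕ → ℕ → Finset ℕ, (∀ m, FinBlock (As m) ∧ FU (As m) ∈ 𝒰) →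
      ∃ B, FinBlock B ∧ FU B ∈ 𝒰 ∧ ∀ m, ∃ k, ∀ n, k ≤ n → B n ∈ FU (As m)

/-- initial unions, the empty set included -/
def IU (A : ℕ → Finset ℕ) (k : ℕ) : Set (Finset ℕ) := {s | ∃ I ⊆ Finset.range k, s = I.biUnion A}

theorem IU_finite (A : ℕ → Finset ℕ) (k : ℕ) : (IU A k).Finite := by
  have h1 : IU A k ⊆ (fun I : Finset ℕ => I.biUnion A) '' ((Finset.range k).powerset : Set (Finset ℕ)) := by
    rintro s ⟨I, hI, rfl⟩
    exact ⟨I, Finset.mem_coe.2 (Finset.mem_powerset.2 hI), rfl⟩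
  exact ((Finset.finite_toSet _).image _).subset h1

theorem IU_congr {A B : ℕ → Finset ℕ} {k : ℕ} (h : ∀ i < k, A i = B i) : IU A k = IU B k := by
  have h1 : ∀ {A B : ℕ → Finset ℕ}, (∀ i < k, A i = B i) → IU A k ⊆ IU B k := by
    intro A B h
    rintro s ⟨I, hI, rfl⟩
    refine ⟨I, hI, ?_⟩
    ext t
    simp only [Finset.mem_biUnion]
    constructor
    · rintro ⟨i, hi, ht⟩
      exact ⟨i, hi, by rw [← h i (Finset.mem_range.1 (hI hi))]; exact ht⟩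
    · rintro ⟨i, hi, ht⟩
      exact ⟨i, hi, by rw [h i (Finset.mem_range.1 (hI hi))]; exact ht⟩
  exact Set.Subset.antisymm (h1 h) (h1 (fun i hi => (h i hi).symm))

theorem diag2 {𝒰 : Ultrafilter (Finset ℕ)} (h𝒰 : SOU 𝒰)
    (P : Finset ℕ → Finset ℕ → Set (Finset ℕ)) (hP : ∀ s t, P s t ∈ 𝒰) :
    ∃ A, FinBlock A ∧ FU A ∈ 𝒰 ∧
      ∀ k, ∀ s ∈ IU A k, ∀ t ∈ IU A k, FU (tl A k) ⊆ P s t := by
  classical
  obtain ⟨A, hA, hA𝒰, hAs⟩ := diag h𝒰.base h𝒰.stab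
    (fun l => {b | ∀ s ∈ IU (fun i => l.getD i ∅) l.length,
      ∀ t ∈ IU (fun i => l.getD i ∅) l.length, b ∈ P s t}) (by
      intro l
      have h1 : (⋂ s ∈ IU (fun i => l.getD i ∅) l.length,
          ⋂ t ∈ IU (fun i => l.getD i ∅) l.length, P s t) ∈ 𝒰 := by
        refine (Filter.biInter_mem (IU_finite _ _)).2 (fun s _ => ?_)
        exact (Filter.biInter_mem (IU_finite _ _)).2 (fun t _ => hP s t)
      refine Filter.mem_of_superset h1 ?_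
      intro b hb s hs t ht
      exact Set.mem_iInter₂.1 (Set.mem_iInter₂.1 hb s hs) t ht)
  refine ⟨A, hA, hA𝒰, ?_⟩
  intro k s hs t ht b hb
  have h1 := hAs k hb
  have h2 : IU (fun i => (List.ofFn (fun i : Fin k => A i.val)).getD i ∅)
      (List.ofFn (fun i : Fin k => A i.val)).length = IU A k := by
    rw [List.length_ofFn]
    apply IU_congr
    intro i hi
    rw [List.getD_eq_getElem _ _ (by simpa using hi)]
    simp
  exact h1 s (by rw [h2]; exact hs) t (by rw [h2]; exact ht)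

theorem far {𝒰 : Ultrafilter (Finset ℕ)} (h𝒰 : SOU 𝒰) (N : ℕ) :
    ∀ᶠ s in (𝒰 : Filter (Finset ℕ)), ∀ t ∈ s, N ≤ t := by
  by_contra hcon
  have h1 : {s : Finset ℕ | ∀ t ∈ s, N ≤ t}ᶜ ∈ 𝒰 := Ultrafilter.compl_mem_iff_notMem.2 hcon
  obtain ⟨A, hA, _, hAs⟩ := h𝒰.base _ h1
  have h2 : A N ∈ FU A := ⟨{N}, Finset.singleton_nonempty _, by simp⟩
  exact hAs h2 (fun t ht => hA.le_mem N t ht)

theorem ne_empty {𝒰 : Ultrafilter (Finset ℕ)} (h𝒰 : SOU 𝒰) :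
    ∀ᶠ s in (𝒰 : Filter (Finset ℕ)), s.Nonempty := by
  obtain ⟨A, hA, hA𝒰, _⟩ := h𝒰.base Set.univ Filter.univ_mem
  refine Filter.mem_of_superset hA𝒰 ?_
  rintro s ⟨I, ⟨i, hi⟩, rfl⟩
  obtain ⟨t, ht⟩ := (hA i).1
  exact ⟨t, Finset.mem_biUnion.2 ⟨i, hi, ht⟩⟩

theorem tl_sub {A : ℕ → Finset ℕ} {k : ℕ} {b : Finset ℕ} (hb : b ∈ FU (tl A k)) :
    ∃ J : Finset ℕ, J.Nonempty ∧ (∀ j ∈ J, k ≤ j) ∧ b = J.biUnion A := by
  obtain ⟨J, hJ, rfl⟩ := hb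
  refine ⟨J.image (· + k), hJ.image _, ?_, ?_⟩
  · intro j hj
    obtain ⟨i, _, rfl⟩ := Finset.mem_image.1 hj
    exact Nat.le_add_left _ _
  · rw [Finset.image_biUnion]
    rfl

theorem mem_tl {A : ℕ → Finset ℕ} {k : ℕ} {J : Finset ℕ} (hJ : J.Nonempty)
    (hk : ∀ j ∈ J, k ≤ j) : J.biUnion A ∈ FU (tl A k) := by
  refine ⟨J.image (· - k), hJ.image _, ?_⟩
  rw [Finset.image_biUnion]
  ext t
  simp only [Finset.mem_biUnion, tl]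
  constructor
  · rintro ⟨j, hj, ht⟩
    exact ⟨j, hj, by rwa [Nat.sub_add_cancel (hk j hj)]⟩
  · rintro ⟨j, hj, ht⟩
    exact ⟨j, hj, by rwa [Nat.sub_add_cancel (hk j hj)] at ht⟩

theorem tl_mem {𝒰 : Ultrafilter (Finset ℕ)} (h𝒰 : SOU 𝒰) {A : ℕ → Finset ℕ} (hA : FinBlock A)
    (hA𝒰 : FU A ∈ 𝒰) (k : ℕ) : FU (tl A k) ∈ 𝒰 := by
  classical
  have h1 := far h𝒰 (((Finset.range k).biUnion A).sup id + 1)
  filter_upwards [hA𝒰, h1] with s hs hs1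
  obtain ⟨I, hI, rfl⟩ := hs
  apply mem_tl hI
  intro j hj
  by_contra hlt
  push Not at hlt
  obtain ⟨t, ht⟩ := (hA j).1
  have h2 := hs1 t (Finset.mem_biUnion.2 ⟨j, hj, ht⟩)
  have h3 : t ≤ ((Finset.range k).biUnion A).sup id :=
    Finset.le_sup (f := id) (Finset.mem_biUnion.2 ⟨j, Finset.mem_range.2 hlt, ht⟩)
  omega

/-- a union of an initial union and an element of the tail -/
theorem union_mem {A : ℕ → Finset ℕ} {k : ℕ} {s b : Finset ℕ} (hs : s ∈ IU A k)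
    (hb : b ∈ FU (tl A k)) : s ∪ b ∈ FU A := by
  classical
  obtain ⟨I, _, rfl⟩ := hs
  obtain ⟨J, hJ, _, rfl⟩ := tl_sub hb
  exact ⟨I ∪ J, hJ.mono Finset.subset_union_right, by rw [Finset.union_biUnion]⟩

theorem IU_of_FU {A : ℕ → Finset ℕ} {s : Finset ℕ} (hs : s ∈ FU A) : ∃ k, s ∈ IU A k := by
  obtain ⟨I, _, rfl⟩ := hs
  refine ⟨I.sup id + 1, I, ?_, rfl⟩
  intro i hi
  rw [Finset.mem_range]
  exact Nat.lt_succ_of_le (Finset.le_sup (f := id) hi)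

/-- idempotence -/
theorem idem {𝒰 : Ultrafilter (Finset ℕ)} (h𝒰 : SOU 𝒰) {p : Finset ℕ → Prop}
    (hp : ∀ᶠ s in (𝒰 : Filter (Finset ℕ)), p s) :
    ∀ᶠ a in (𝒰 : Filter (Finset ℕ)), ∀ᶠ b in (𝒰 : Filter (Finset ℕ)), p (a ∪ b) := by
  obtain ⟨A, hA, hA𝒰, hAs⟩ := h𝒰.base _ hp
  filter_upwards [hA𝒰] with a ha
  obtain ⟨k, hk⟩ := IU_of_FU ha
  filter_upwards [tl_mem h𝒰 hA hA𝒰 k] with b hb
  exact hAs (union_mem hk hb)

theorem ev_or {𝒰 : Ultrafilter (Finset ℕ)} (p : Finset ℕ → Prop) :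
    (∀ᶠ s in (𝒰 : Filter (Finset ℕ)), p s) ∨ (∀ᶠ s in (𝒰 : Filter (Finset ℕ)), ¬ p s) := by
  by_cases h : ∀ᶠ s in (𝒰 : Filter (Finset ℕ)), p s
  · exact Or.inl h
  · exact Or.inr (Ultrafilter.eventually_not.2 h)

theorem ev_ex {𝒰 : Ultrafilter (Finset ℕ)} {p : Finset ℕ → Prop}
    (h : ∀ᶠ s in (𝒰 : Filter (Finset ℕ)), p s) : ∃ s, p s := h.exists

end Pool.Agent.Y467.TF
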