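import Mathlib
import Pool.Agent.Y467.TF.Diag

set_option autoImplicit false

/-! The injective case of the canonical theorem. -/

namespace Pool.Agent.Y467.TF

open Filter

variable {Λ : Type*}

/-- eventual equality -/
def Ev (𝒰 : Ultrafilter (Finset ℕ)) (h : Finset ℕ → Λ) (s t : Finset ℕ) : Prop :=
  ∀ᶠ b in (𝒰 : Filter (Finset ℕ)), h (s ∪ b) = h (t ∪ b)

theorem Ev.symm {𝒰 : Ultrafilter (Finset ℕ)} {h : Finset ℕ → Λ} {s t : Finset ℕ}
    (H : Ev 𝒰 h s t) : Ev 𝒰 h t s := by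
  filter_upwards [H] with b hb
  exact hb.symm

theorem Ev.trans {𝒰 : Ultrafilter (Finset ℕ)} {h : Finset ℕ → Λ} {s t u : Finset ℕ}
    (H : Ev 𝒰 h s t) (H' : Ev 𝒰 h t u) : Ev 𝒰 h s u := by
  filter_upwards [H, H'] with b hb hb'
  exact hb.trans hb'

theorem ev_imp {𝒰 : Ultrafilter (Finset ℕ)} (q : Finset ℕ → Prop) :
    ∀ᶠ b in (𝒰 : Filter (Finset ℕ)), ((∀ᶠ b' in (𝒰 : Filter (Finset ℕ)), q b') → q b) := by
  by_cases h : ∀ᶠ b' in (𝒰 : Filter (Finset ℕ)), q b'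
  · filter_upwards [h] with b hb _
    exact hb
  · exact Eventually.of_forall (fun b h' => absurd h' h)

/-- Diagonalization for a countable family of ternary conditions. -/
theorem diag3 {𝒰 : Ultrafilter (Finset ℕ)} (h𝒰 : SOU 𝒰) {N : ℕ}
    (q : Fin N → Finset ℕ → Finset ℕ → Finset ℕ → Prop) :
    ∃ A, FinBlock A ∧ FU A ∈ 𝒰 ∧
      ∀ i k, ∀ s ∈ IU A k, ∀ t ∈ IU A k, ∀ b ∈ FU (tl A k),
        (∀ᶠ b' in (𝒰 : Filter (Finset ℕ)), q i s t b') → q i s t b := by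
  obtain ⟨A, hA, hA𝒰, hAs⟩ := diag2 h𝒰
    (fun s t => {b | ∀ i, (∀ᶠ b' in (𝒰 : Filter (Finset ℕ)), q i s t b') → q i s t b}) (by
      intro s t
      exact eventually_all.2 (fun i => ev_imp (q i s t)))
  exact ⟨A, hA, hA𝒰, fun i k s hs t ht b hb => hAs k s hs t ht hb i⟩

theorem split_top {A : ℕ → Finset ℕ} {k : ℕ} {I : Finset ℕ} (hI : I ⊆ Finset.range (k+1)) :
    (k ∈ I ∧ (I.erase k) ⊆ Finset.range k ∧ I.biUnion A = (I.erase k).biUnion A ∪ A k) ∨
    (k ∉ I ∧ I ⊆ Finset.range k) := by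
  by_cases hk : k ∈ I
  · left
    refine ⟨hk, ?_, ?_⟩
    · intro i hi
      rw [Finset.mem_erase] at hi
      have := Finset.mem_range.1 (hI hi.2)
      rw [Finset.mem_range]
      omega
    · conv_lhs => rw [← Finset.insert_erase hk]
      rw [Finset.biUnion_insert, Finset.union_comm]
  · right
    refine ⟨hk, ?_⟩
    intro i hi
    have h1 := Finset.mem_range.1 (hI hi)
    have h2 : i ≠ k := fun h => hk (h ▸ hi)
    rw [Finset.mem_range]
    omega

theorem top_mem (A : ℕ → Finset ℕ) (k : ℕ) : A k ∈ FU (tl A k) := by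
  have := mem_tl (A := A) (k := k) (J := {k}) (Finset.singleton_nonempty _)
    (fun j hj => by rw [Finset.mem_singleton.1 hj])
  rwa [Finset.singleton_biUnion] at this

theorem erase_eq {I J : Finset ℕ} {k : ℕ} (hI : k ∈ I) (hJ : k ∈ J)
    (h : I.erase k = J.erase k) : I = J := by
  rw [← Finset.insert_erase hI, ← Finset.insert_erase hJ, h]

theorem inj_case {𝒰 : Ultrafilter (Finset ℕ)} (h𝒰 : SOU 𝒰) (h : Finset ℕ → Λ)
    (hnc : ∀ r, ¬ ∀ᶠ b in (𝒰 : Filter (Finset ℕ)), h b = r)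
    (hφ : ∀ᶠ a in (𝒰 : Filter (Finset ℕ)), ∀ᶠ b in (𝒰 : Filter (Finset ℕ)),
      ¬ Ev 𝒰 h a (a ∪ b)) :
    ∃ A, FinBlock A ∧ FU A ∈ 𝒰 ∧ ∀ I J : Finset ℕ, I.Nonempty → J.Nonempty →
      h (I.biUnion A) = h (J.biUnion A) → I = J := by
  classical
  obtain ⟨A, hA, hA𝒰, hq⟩ := diag3 h𝒰 (N := 5) ![
    fun _ _ b => ∀ᶠ b' in (𝒰 : Filter (Finset ℕ)), ¬ Ev 𝒰 h b (b ∪ b'),
    fun s t b => ¬ Ev 𝒰 h (s ∪ b) t,
    fun s t b => ¬ Ev 𝒰 h (s ∪ b) (t ∪ b),
    fun s t b => h (s ∪ b) ≠ h (t ∪ b),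
    fun s t b => h (s ∪ b) ≠ h t]
  have hΦ : ∀ b ∈ FU A, ∀ᶠ b' in (𝒰 : Filter (Finset ℕ)), ¬ Ev 𝒰 h b (b ∪ b') := by
    intro b hb
    have h0 : (∅ : Finset ℕ) ∈ IU A 0 := ⟨∅, by simp, by simp⟩
    exact hq 0 0 ∅ h0 ∅ h0 b hb hφ
  have hsb : ∀ k, ∀ s ∈ IU A k, ∀ᶠ b in (𝒰 : Filter (Finset ℕ)), s ∪ b ∈ FU A := by
    intro k s hs
    filter_upwards [tl_mem h𝒰 hA hA𝒰 k] with b hb
    exact union_mem hs hb
  have a1 : ∀ k, ∀ s ∈ IU A k, ∀ t, ∀ᶠ b in (𝒰 : Filter (Finset ℕ)), ¬ Ev 𝒰 h (s ∪ b) t := by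
    intro k s hs t
    rcases ev_or (𝒰 := 𝒰) (fun b => Ev 𝒰 h (s ∪ b) t) with H | H
    · exfalso
      have H2 := idem h𝒰 H
      obtain ⟨b, hb1, hb2, hb3⟩ := ev_ex ((H.and (H2.and (hsb k s hs))))
      obtain ⟨b', hb'1, hb'2⟩ := ev_ex (hb2.and (hΦ _ hb3))
      apply hb'2
      rw [Finset.union_assoc]
      exact hb1.trans hb'1.symm
    · exact H
  have a2 : ∀ s t, ¬ Ev 𝒰 h s t → ∀ᶠ b in (𝒰 : Filter (Finset ℕ)), ¬ Ev 𝒰 h (s ∪ b) (t ∪ b) := by
    intro s t hst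
    have H : ∀ᶠ c in (𝒰 : Filter (Finset ℕ)), ¬ (h (s ∪ c) = h (t ∪ c)) :=
      Ultrafilter.eventually_not.2 hst
    filter_upwards [idem h𝒰 H] with b hb hE
    obtain ⟨c, hc1, hc2⟩ := ev_ex (hb.and hE)
    apply hc1
    rw [← Finset.union_assoc, ← Finset.union_assoc]
    exact hc2
  have a4 : ∀ k, ∀ s ∈ IU A k, ∀ t, ∀ᶠ b in (𝒰 : Filter (Finset ℕ)), h (s ∪ b) ≠ h t := by
    intro k s hs t
    rcases ev_or (𝒰 := 𝒰) (fun b => h (s ∪ b) = h t) with H | H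
    · exfalso
      obtain ⟨I, hI, rfl⟩ := hs
      rcases I.eq_empty_or_nonempty with rfl | hne
      · apply hnc (h t)
        filter_upwards [H] with b hb
        simpa using hb
      · have hs : I.biUnion A ∈ FU A := ⟨I, hne, rfl⟩
        obtain ⟨b', hb1, hb2⟩ := ev_ex ((idem h𝒰 H).and (hΦ _ hs))
        apply hb2
        filter_upwards [H, hb1] with b hb hb'
        rw [hb, Finset.union_assoc]
        exact hb'.symm
    · exact H
  have hIU : ∀ k (I : Finset ℕ), I ⊆ Finset.range k → I.biUnion A ∈ IU A k :=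
    fun k I hI => ⟨I, hI, rfl⟩
  have claim1 : ∀ k, ∀ I ⊆ Finset.range k, ∀ J ⊆ Finset.range k,
      Ev 𝒰 h (I.biUnion A) (J.biUnion A) → I = J := by
    intro k
    induction k with
    | zero =>
      intro I hI J hJ _
      rw [Finset.range_zero, Finset.subset_empty] at hI hJ
      rw [hI, hJ]
    | succ k ih =>
      intro I hI J hJ hE
      rcases split_top (A := A) hI with ⟨hkI, hI', hIe⟩ | ⟨hkI, hI'⟩
      · rcases split_top (A := A) hJ with ⟨hkJ, hJ', hJe⟩ | ⟨hkJ, hJ'⟩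
        · apply erase_eq hkI hkJ
          apply ih _ hI' _ hJ'
          by_contra hcon
          rw [hIe, hJe] at hE
          exact hq 2 k _ (hIU k _ hI') _ (hIU k _ hJ') (A k) (top_mem A k) (a2 _ _ hcon) hE
        · exfalso
          rw [hIe] at hE
          exact hq 1 k _ (hIU k _ hI') _ (hIU k _ hJ') (A k) (top_mem A k)
            (a1 k _ (hIU k _ hI') _) hE
      · rcases split_top (A := A) hJ with ⟨hkJ, hJ', hJe⟩ | ⟨hkJ, hJ'⟩
        · exfalso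
          rw [hJe] at hE
          exact hq 1 k _ (hIU k _ hJ') _ (hIU k _ hI') (A k) (top_mem A k)
            (a1 k _ (hIU k _ hJ') _) hE.symm
        · exact ih _ hI' _ hJ' hE
  have claim2 : ∀ k, ∀ I ⊆ Finset.range k, ∀ J ⊆ Finset.range k, I.Nonempty → J.Nonempty →
      h (I.biUnion A) = h (J.biUnion A) → I = J := by
    intro k
    induction k with
    | zero =>
      intro I hI J hJ hne _ _
      rw [Finset.range_zero, Finset.subset_empty] at hI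
      rw [hI] at hne
      exact absurd hne Finset.not_nonempty_empty
    | succ k ih =>
      intro I hI J hJ hIn hJn hE
      rcases split_top (A := A) hI with ⟨hkI, hI', hIe⟩ | ⟨hkI, hI'⟩
      · rcases split_top (A := A) hJ with ⟨hkJ, hJ', hJe⟩ | ⟨hkJ, hJ'⟩
        · apply erase_eq hkI hkJ
          apply claim1 k _ hI' _ hJ'
          by_contra hcon
          rw [hIe, hJe] at hE
          exact hq 3 k _ (hIU k _ hI') _ (hIU k _ hJ') (A k) (top_mem A k)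
            (Ultrafilter.eventually_not.2 hcon) hE
        · exfalso
          rw [hIe] at hE
          exact hq 4 k _ (hIU k _ hI') _ (hIU k _ hJ') (A k) (top_mem A k)
            (a4 k _ (hIU k _ hI') _) hE
      · rcases split_top (A := A) hJ with ⟨hkJ, hJ', hJe⟩ | ⟨hkJ, hJ'⟩
        · exfalso
          rw [hJe] at hE
          exact hq 4 k _ (hIU k _ hJ') _ (hIU k _ hI') (A k) (top_mem A k)
            (a4 k _ (hIU k _ hJ') _) hE.symm
        · exact ih _ hI' _ hJ' hIn hJn hE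
  refine ⟨A, hA, hA𝒰, ?_⟩
  intro I J hI hJ hE
  refine claim2 ((I ∪ J).sup id + 1) I ?_ J ?_ hI hJ hE
  · intro i hi
    rw [Finset.mem_range]
    exact Nat.lt_succ_of_le (Finset.le_sup (f := id) (Finset.mem_union_left _ hi))
  · intro i hi
    rw [Finset.mem_range]
    exact Nat.lt_succ_of_le (Finset.le_sup (f := id) (Finset.mem_union_right _ hi))

end Pool.Agent.Y467.TF
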