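import Mathlib
import Pool.Agent.Y467.TF.Inj

set_option autoImplicit false

/-! Ordered-union ultrafilters are not images under maps which forget the middle part. -/

namespace Pool.Agent.Y467.TF

open Filter

/-- minimum and maximum -/
noncomputable def mn (s : Finset ℕ) : ℕ := sInf (s : Set ℕ)
def mx (s : Finset ℕ) : ℕ := s.sup id

theorem mn_le {s : Finset ℕ} {t : ℕ} (ht : t ∈ s) : mn s ≤ t := Nat.sInf_le ht

theorem mn_mem {s : Finset ℕ} (hs : s.Nonempty) : mn s ∈ s := by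
  have h : (s : Set ℕ).Nonempty := hs
  exact Nat.sInf_mem h

theorem le_mx {s : Finset ℕ} {t : ℕ} (ht : t ∈ s) : t ≤ mx s := Finset.le_sup (f := id) ht

theorem mn_union {s t : Finset ℕ} (hs : s.Nonempty) (hst : ∀ i ∈ s, ∀ j ∈ t, i < j) :
    mn (s ∪ t) = mn s := by
  apply le_antisymm
  · exact mn_le (Finset.mem_union_left _ (mn_mem hs))
  · have h1 := mn_mem (s := s ∪ t) (hs.mono Finset.subset_union_left)
    rcases Finset.mem_union.1 h1 with h | h
    · exact mn_le h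
    · exact (hst _ (mn_mem hs) _ h).le

theorem mx_union {s t : Finset ℕ} (ht : t.Nonempty) (hst : ∀ i ∈ s, ∀ j ∈ t, i < j) :
    mx (s ∪ t) = mx t := by
  apply le_antisymm
  · apply Finset.sup_le
    intro i hi
    rcases Finset.mem_union.1 hi with h | h
    · obtain ⟨j, hj⟩ := ht
      exact (hst i h j hj).le.trans (le_mx hj)
    · exact le_mx h
  · apply Finset.sup_le
    intro i hi
    exact le_mx (Finset.mem_union_right _ hi)

theorem mem_IU {A : ℕ → Finset ℕ} {i k : ℕ} (h : i < k) : A i ∈ IU A k :=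
  ⟨{i}, by simpa using h, by simp⟩

theorem mem_IU2 {A : ℕ → Finset ℕ} {i j k : ℕ} (h : i < k) (h' : j < k) : A i ∪ A j ∈ IU A k := by
  refine ⟨{i, j}, ?_, ?_⟩
  · intro x hx
    rw [Finset.mem_insert, Finset.mem_singleton] at hx
    rw [Finset.mem_range]
    rcases hx with rfl | rfl <;> assumption
  · rw [Finset.biUnion_insert, Finset.singleton_biUnion]

theorem mem_tl1 {A : ℕ → Finset ℕ} {i k : ℕ} (h : k ≤ i) : A i ∈ FU (tl A k) := by
  have := mem_tl (A := A) (k := k) (J := {i}) (Finset.singleton_nonempty _)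
    (fun j hj => by rw [Finset.mem_singleton.1 hj]; exact h)
  rwa [Finset.singleton_biUnion] at this

theorem mem_tl2 {A : ℕ → Finset ℕ} {i j k : ℕ} (h : k ≤ i) (h' : k ≤ j) :
    A i ∪ A j ∈ FU (tl A k) := by
  have := mem_tl (A := A) (k := k) (J := {i, j}) (Finset.insert_nonempty _ _) (by
    intro x hx
    rw [Finset.mem_insert, Finset.mem_singleton] at hx
    rcases hx with rfl | rfl <;> assumption)
  rwa [Finset.biUnion_insert, Finset.singleton_biUnion] at this

theorem le_mx_block {A : ℕ → Finset ℕ} (hA : FinBlock A) (i : ℕ) : i ≤ mx (A i) := by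
  obtain ⟨t, ht⟩ := (hA i).1
  exact (hA.le_mem i t ht).trans (le_mx ht)

/-- decomposition of an index set with at least two elements -/
theorem split2 {A : ℕ → Finset ℕ} {I : Finset ℕ} (hI : 2 ≤ I.card) :
    ∃ (i k : ℕ) (M : Finset ℕ), i < k ∧ (∀ j ∈ M, i < j ∧ j < k) ∧ I.biUnion A = (A i ∪ M.biUnion A) ∪ A k := by
  have hne : I.Nonempty := Finset.card_pos.1 (by omega)
  have hik : I.min' hne < I.max' hne := Finset.min'_lt_max'_of_card I hI
  refine ⟨I.min' hne, I.max' hne, (I.erase (I.min' hne)).erase (I.max' hne), hik, ?_, ?_⟩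
  · intro j hj
    rw [Finset.mem_erase, Finset.mem_erase] at hj
    exact ⟨lt_of_le_of_ne (I.min'_le j hj.2.2) (Ne.symm hj.2.1),
      lt_of_le_of_ne (I.le_max' j hj.2.2) hj.1⟩
  · have h1 : I.max' hne ∈ I.erase (I.min' hne) :=
      Finset.mem_erase.2 ⟨hik.ne', I.max'_mem hne⟩
    conv_lhs => rw [← Finset.insert_erase (I.min'_mem hne)]
    rw [Finset.biUnion_insert]
    conv_lhs => rw [← Finset.insert_erase h1]
    rw [Finset.biUnion_insert, Finset.union_comm (A (I.max' hne)), Finset.union_assoc]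

theorem not_minmax {𝒰 : Ultrafilter (Finset ℕ)} (h𝒰 : SOU 𝒰) (h : Finset ℕ → Finset ℕ)
    (hfar : ∀ N, ∀ᶠ b in (𝒰 : Filter (Finset ℕ)), (h b).Nonempty ∧ ∀ t ∈ h b, N ≤ t)
    (hou : ∀ S ∈ 𝒰, ∃ B, FinBlock B ∧ FU B ⊆ h '' S)
    (hφ : ∀ᶠ a in (𝒰 : Filter (Finset ℕ)), ∀ᶠ b in (𝒰 : Filter (Finset ℕ)),
      Ev 𝒰 h a (a ∪ b)) : False := by
  classical
  let Θ : Finset ℕ → Prop := fun s => ∃ m, ∀ᶠ b in (𝒰 : Filter (Finset ℕ)), mn (h (s ∪ b)) = m
  let γ : Finset ℕ → ℕ := fun s => if H : Θ s then Classical.choose H else 0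
  have hγ : ∀ s, Θ s → ∀ᶠ b in (𝒰 : Filter (Finset ℕ)), mn (h (s ∪ b)) = γ s := by
    intro s hs
    have : γ s = Classical.choose hs := by simp only [γ]; rw [dif_pos hs]
    rw [this]
    exact Classical.choose_spec hs
  let Unb : Finset ℕ → Prop := fun s => ∀ M, ∀ᶠ b in (𝒰 : Filter (Finset ℕ)), M < mx (h (s ∪ b))
  let Bd : Finset ℕ → Prop := fun s => ∃ M, ∀ᶠ b in (𝒰 : Filter (Finset ℕ)), mx (h (s ∪ b)) ≤ M
  let β : Finset ℕ → ℕ := fun s => if H : Bd s then Classical.choose H else 0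
  have hβ : ∀ s, Bd s → ∀ᶠ b in (𝒰 : Filter (Finset ℕ)), mx (h (s ∪ b)) ≤ β s := by
    intro s hs
    have : β s = Classical.choose hs := by simp only [β]; rw [dif_pos hs]
    rw [this]
    exact Classical.choose_spec hs
  have hBd : ∀ s, ¬ Unb s → Bd s := by
    intro s hs
    simp only [Unb] at hs
    push Not at hs
    obtain ⟨M, hM⟩ := hs
    exact ⟨M, hM⟩
  have hΘ : ∀ s, ¬ Θ s → ∀ M, ∀ᶠ b in (𝒰 : Filter (Finset ℕ)), M < mn (h (s ∪ b)) := by
    intro s hs M
    rcases ev_or (𝒰 := 𝒰) (fun b => M < mn (h (s ∪ b))) with H | H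
    · exact H
    · exfalso
      apply hs
      have h1 : ∀ᶠ b in (𝒰 : Filter (Finset ℕ)), ∃ m ∈ Set.Iic M, mn (h (s ∪ b)) = m := by
        filter_upwards [H] with b hb
        exact ⟨_, not_lt.1 hb, rfl⟩
      obtain ⟨m, _, hm⟩ := (Ultrafilter.eventually_exists_mem_iff (Set.finite_Iic M)).1 h1
      exact ⟨m, hm⟩
  obtain ⟨A, hA, hA𝒰, hq⟩ := diag3 h𝒰 (N := 13) ![
    fun _ _ b => ∀ᶠ b' in (𝒰 : Filter (Finset ℕ)), Ev 𝒰 h b (b ∪ b'),
    fun s _ b => Ev 𝒰 h s (s ∪ b),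
    fun s t b => h (s ∪ b) = h (t ∪ b),
    fun s _ b => mx s < mn (h b),
    fun s _ b => γ s < mn (h b),
    fun s _ b => mn (h (s ∪ b)) = γ s,
    fun s t b => mx t < mn (h (s ∪ b)),
    fun _ _ b => Θ b,
    fun _ _ b => ¬ Θ b,
    fun s t b => mx (h t) < mx (h (s ∪ b)),
    fun _ _ b => Unb b,
    fun _ _ b => ¬ Unb b,
    fun s _ b => mx (h (s ∪ b)) ≤ β s]
  have h0 : (∅ : Finset ℕ) ∈ IU A 0 := ⟨∅, by simp, by simp⟩
  have hΦ : ∀ b ∈ FU A, ∀ᶠ b' in (𝒰 : Filter (Finset ℕ)), Ev 𝒰 h b (b ∪ b') :=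
    fun b hb => hq 0 0 ∅ h0 ∅ h0 b hb hφ
  have hAi : ∀ i, A i ∈ FU A := fun i => ⟨{i}, Finset.singleton_nonempty _, by simp⟩
  -- the middle part does not matter
  have hmid : ∀ I : Finset ℕ, 2 ≤ I.card → ∃ i k, i < k ∧ h (I.biUnion A) = h (A i ∪ A k) := by
    intro I hI
    obtain ⟨i, k, M, hik, hM, hIe⟩ := split2 (A := A) hI
    refine ⟨i, k, hik, ?_⟩
    rw [hIe]
    rcases M.eq_empty_or_nonempty with rfl | hMne
    · simp
    · have h1 : Ev 𝒰 h (A i) (A i ∪ M.biUnion A) :=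
        hq 1 (i+1) (A i) (mem_IU (Nat.lt_succ_self i)) (A i) (mem_IU (Nat.lt_succ_self i))
          (M.biUnion A) (mem_tl hMne (fun j hj => (hM j hj).1)) (hΦ _ (hAi i))
      have h2 : A i ∪ M.biUnion A ∈ IU A k := by
        refine ⟨insert i M, ?_, by rw [Finset.biUnion_insert]⟩
        intro x hx
        rw [Finset.mem_range]
        rcases Finset.mem_insert.1 hx with rfl | hx
        · exact hik
        · exact (hM x hx).2
      exact (hq 2 k (A i) (mem_IU hik) _ h2 (A k) (top_mem A k) h1).symm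
  -- sets with two blocks
  have hS2 : {s : Finset ℕ | ∃ I : Finset ℕ, 2 ≤ I.card ∧ s = I.biUnion A} ∈ 𝒰 := by
    rcases ev_or (𝒰 := 𝒰) (fun s => ∃ I : Finset ℕ, 2 ≤ I.card ∧ s = I.biUnion A) with H | H
    · exact H
    · exfalso
      obtain ⟨a, ha1, ha2⟩ := ev_ex ((idem h𝒰 H).and hA𝒰)
      obtain ⟨I, hI, rfl⟩ := ha2
      obtain ⟨b, hb1, hb2⟩ := ev_ex (ha1.and (tl_mem h𝒰 hA hA𝒰 (I.sup id + 1)))
      obtain ⟨J, hJ, hJ2, rfl⟩ := tl_sub hb2
      apply hb1
      refine ⟨I ∪ J, ?_, by rw [Finset.union_biUnion]⟩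
      have hd : Disjoint I J := by
        rw [Finset.disjoint_left]
        intro x hx hx'
        have h1 := hJ2 x hx'
        have h2 : x ≤ I.sup id := Finset.le_sup (f := id) hx
        omega
      rw [Finset.card_union_of_disjoint hd]
      have h3 := Finset.card_pos.2 hI
      have h4 := Finset.card_pos.2 hJ
      omega
  obtain ⟨B, hB, hBS⟩ := hou _ hS2
  have hBH : ∀ s ∈ FU B, ∃ i k, i < k ∧ s = h (A i ∪ A k) := by
    intro s hs
    obtain ⟨x, ⟨I, hI, rfl⟩, hx⟩ := hBS hs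
    obtain ⟨i, k, hik, he⟩ := hmid I hI
    exact ⟨i, k, hik, by rw [← hx, he]⟩
  -- different last blocks give different maxima
  have hidx : ∀ i k, i < k → i ≤ mn (h (A i ∪ A k)) := by
    intro i k hik
    rcases Nat.eq_zero_or_pos i with rfl | hi
    · exact Nat.zero_le _
    · have h1 := hq 3 i (A (i-1)) (mem_IU (by omega)) (A (i-1)) (mem_IU (by omega))
        (A i ∪ A k) (mem_tl2 le_rfl hik.le) (by
          filter_upwards [hfar (mx (A (i-1)) + 1)] with b hb
          exact Nat.lt_of_succ_le (hb.2 _ (mn_mem hb.1)))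
      have h2 : mx (A (i-1)) < mn (h (A i ∪ A k)) := h1
      have h3 := le_mx_block hA (i-1)
      omega
  have ht : ∀ n, ∃ i k, i < k ∧ B 0 ∪ B (n+1) = h (A i ∪ A k) := by
    intro n
    apply hBH
    exact ⟨{0, n+1}, Finset.insert_nonempty _ _, by
      rw [Finset.biUnion_insert, Finset.singleton_biUnion]⟩
  choose i k hik hte using ht
  have hBlt : ∀ n, ∀ x ∈ B 0, ∀ y ∈ B (n+1), x < y := fun n => hB.lt (Nat.succ_pos n)
  have htmn : ∀ n, mn (h (A (i n) ∪ A (k n))) = mn (B 0) := by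
    intro n
    rw [← hte n]
    exact mn_union (hB 0).1 (hBlt n)
  have htmx : ∀ n, n < mx (h (A (i n) ∪ A (k n))) := by
    intro n
    rw [← hte n, mx_union (hB (n+1)).1 (hBlt n)]
    exact le_mx_block hB (n+1)
  set m := mn (B 0) with hm
  have him : ∀ n, i n ≤ m := fun n => by
    have h1 := hidx (i n) (k n) (hik n)
    rwa [htmn n] at h1
  obtain ⟨p, hp⟩ := Finite.exists_infinite_fiber
    (fun n : ℕ => (⟨i n, Nat.lt_succ_of_le (him n)⟩ : Fin (m+1)))
  have hp' : {n : ℕ | i n = p.val}.Infinite := by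
    rw [← Set.infinite_coe_iff]
    refine (Equiv.infinite_iff (Equiv.setCongr ?_)).1 hp
    ext n
    simp [Fin.ext_iff]
  have hpn : ∀ N, ∃ n, N < n ∧ i n = p.val := by
    intro N
    obtain ⟨n, hn1, hn2⟩ := hp'.exists_gt N
    exact ⟨n, hn2, hn1⟩
  have hpk : ∀ K, ∃ n, K < k n ∧ i n = p.val := by
    intro K
    by_contra hcon
    push Not at hcon
    obtain ⟨n, hn1, hn2⟩ := hpn ((Finset.range (K+1)).sup (fun k' => mx (h (A p.val ∪ A k'))))
    have h1 : k n ≤ K := by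
      by_contra hlt
      push Not at hlt
      exact hcon n hlt hn2
    have h2 : mx (h (A p.val ∪ A (k n))) ≤
        (Finset.range (K+1)).sup (fun k' => mx (h (A p.val ∪ A k'))) :=
      Finset.le_sup (f := fun k' => mx (h (A p.val ∪ A k'))) (Finset.mem_range.2 (by omega))
    have h3 := htmx n
    rw [hn2] at h3
    omega
  -- the minimum depends on the first block only
  have hΘp : Θ (A p.val) := by
    by_contra hcon
    obtain ⟨n, hn1, hn2⟩ := hpk (m + 1)
    have hpk' : p.val < k n := by rw [← hn2]; exact hik n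
    have h1 := hq 6 (k n) (A p.val) (mem_IU hpk') (A (k n - 1)) (mem_IU (by omega)) (A (k n))
      (top_mem A (k n)) (hΘ _ hcon _)
    have h2 : mx (A (k n - 1)) < mn (h (A p.val ∪ A (k n))) := h1
    have h3 := le_mx_block hA (k n - 1)
    have h4 := htmn n
    rw [hn2] at h4
    omega
  have hΘA : ∀ b ∈ FU A, Θ b := by
    rcases ev_or (𝒰 := 𝒰) Θ with H | H
    · exact fun b hb => hq 7 0 ∅ h0 ∅ h0 b hb H
    · exact absurd hΘp (hq 8 0 ∅ h0 ∅ h0 _ (hAi _) H)
  have hmn : ∀ a c, a < c → mn (h (A a ∪ A c)) = γ (A a) := by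
    intro a c hac
    exact hq 5 (a+1) (A a) (mem_IU (Nat.lt_succ_self a)) (A a) (mem_IU (Nat.lt_succ_self a))
      (A c) (mem_tl1 hac) (hγ _ (hΘA _ (hAi a)))
  have hγlt : ∀ a a', a < a' → γ (A a) < γ (A a') := by
    intro a a' haa
    rw [← hmn a' (a'+1) (Nat.lt_succ_self _)]
    exact hq 4 (a+1) (A a) (mem_IU (Nat.lt_succ_self a)) (A a) (mem_IU (Nat.lt_succ_self a))
      (A a' ∪ A (a'+1)) (mem_tl2 haa (by omega)) (by
        filter_upwards [hfar (γ (A a) + 1)] with b hb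
        exact Nat.lt_of_succ_le (hb.2 _ (mn_mem hb.1)))
  -- the maximum is unbounded
  have hUp : Unb (A p.val) := by
    by_contra hcon
    have h1 := hBd _ hcon
    obtain ⟨n, hn1, hn2⟩ := hpn (β (A p.val))
    have hpk' : p.val < k n := by rw [← hn2]; exact hik n
    have h2 := hq 12 (k n) (A p.val) (mem_IU hpk') (A p.val) (mem_IU hpk') (A (k n))
      (top_mem A (k n)) (hβ _ h1)
    have h2' : mx (h (A p.val ∪ A (k n))) ≤ β (A p.val) := h2
    have h3 := htmx n
    rw [hn2] at h3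
    omega
  have hUA : ∀ b ∈ FU A, Unb b := by
    rcases ev_or (𝒰 := 𝒰) Unb with H | H
    · exact fun b hb => hq 10 0 ∅ h0 ∅ h0 b hb H
    · exact absurd hUp (hq 11 0 ∅ h0 ∅ h0 _ (hAi _) H)
  have hmxlt : ∀ a c a' c', a < c → a' < c' → c < c' →
      mx (h (A a ∪ A c)) < mx (h (A a' ∪ A c')) := by
    intro a c a' c' hac hac' hcc
    exact hq 9 c' (A a') (mem_IU hac') (A a ∪ A c) (mem_IU2 (hac.trans hcc) hcc) (A c')
      (top_mem A c') (hUA _ (hAi a') _)
  -- two different members of `FU B` with the same minimum and maximum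
  have hinj : ∀ s ∈ FU B, ∀ s' ∈ FU B, mn s = mn s' → mx s = mx s' → s = s' := by
    intro s hs s' hs' h1 h2
    obtain ⟨a, c, hac, rfl⟩ := hBH s hs
    obtain ⟨a', c', hac', rfl⟩ := hBH s' hs'
    have hc : c = c' := by
      rcases lt_trichotomy c c' with hlt | heq | hgt
      · have := hmxlt a c a' c' hac hac' hlt
        omega
      · exact heq
      · have := hmxlt a' c' a c hac' hac hgt
        omega
    rw [hmn a c hac, hmn a' c' hac'] at h1
    have ha : a = a' := by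
      rcases lt_trichotomy a a' with hlt | heq | hgt
      · have := hγlt a a' hlt
        omega
      · exact heq
      · have := hγlt a' a hgt
        omega
    rw [ha, hc]
  have e1 : B 0 ∪ B 2 ∈ FU B := ⟨{0, 2}, Finset.insert_nonempty _ _, by
    rw [Finset.biUnion_insert, Finset.singleton_biUnion]⟩
  have e2 : B 0 ∪ (B 1 ∪ B 2) ∈ FU B := ⟨{0, 1, 2}, Finset.insert_nonempty _ _, by
    rw [Finset.biUnion_insert, Finset.biUnion_insert, Finset.singleton_biUnion]⟩
  have l01 := hB.lt (show 0 < 1 by norm_num)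
  have l02 := hB.lt (show 0 < 2 by norm_num)
  have l12 := hB.lt (show 1 < 2 by norm_num)
  have l012 : ∀ x ∈ B 0, ∀ y ∈ B 1 ∪ B 2, x < y := by
    intro x hx y hy
    rcases Finset.mem_union.1 hy with hy | hy
    · exact l01 x hx y hy
    · exact l02 x hx y hy
  have heq := hinj _ e1 _ e2
    (by rw [mn_union (hB 0).1 l02, mn_union (hB 0).1 l012])
    (by rw [mx_union (hB 2).1 l02, mx_union ((hB 1).1.mono Finset.subset_union_left) l012,
      mx_union (hB 2).1 l12])
  obtain ⟨y, hy⟩ := (hB 1).1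
  have hy2 : y ∈ B 0 ∪ B 2 := by
    rw [heq]
    exact Finset.mem_union_right _ (Finset.mem_union_left _ hy)
  rcases Finset.mem_union.1 hy2 with h1 | h1
  · exact lt_irrefl _ (l01 y h1 y hy)
  · exact lt_irrefl _ (l12 y hy y h1)

end Pool.Agent.Y467.TF
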