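import Mathlib

set_option autoImplicit false

/-! The multiplicative monoid of `ℚ` maps onto that of every countable field. -/

namespace Pool.Agent.Y467.TF

theorem finite_val {q : ℚ} (hq : q ≠ 0) :
    {p : Nat.Primes | padicValRat (p : ℕ) q ≠ 0}.Finite := by
  have h1 : {p : Nat.Primes | padicValRat (p : ℕ) q ≠ 0} ⊆
      (fun p : Nat.Primes => (p : ℕ)) ⁻¹' ((q.num.natAbs * q.den).primeFactors : Set ℕ) := by
    intro p hp
    have hp' : padicValRat (p : ℕ) q ≠ 0 := hp
    show (p : ℕ) ∈ ((q.num.natAbs * q.den).primeFactors : Set ℕ)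
    rw [Finset.mem_coe, Nat.mem_primeFactors]
    have hn : q.num.natAbs ≠ 0 := Int.natAbs_ne_zero.2 (Rat.num_ne_zero.2 hq)
    refine ⟨p.2, ?_, mul_ne_zero hn q.den_nz⟩
    by_contra hcon
    apply hp'
    rw [p.2.dvd_mul] at hcon
    push Not at hcon
    rw [padicValRat_def, padicValInt, padicValNat.eq_zero_of_not_dvd hcon.1,
      padicValNat.eq_zero_of_not_dvd hcon.2]
    simp
  exact (Set.Finite.preimage (fun a _ b _ h => Subtype.ext h) (Finset.finite_toSet _)).subset h1

theorem exists_rat_surj (K : Type*) [Field K] [Countable K] :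
    ∃ φ : ℚ →*₀ K, Function.Surjective φ := by
  classical
  have hKu : Countable Kˣ := by
    apply Function.Injective.countable (f := fun u : Kˣ => (u : K))
    intro a b h
    exact Units.ext h
  obtain ⟨g, hg⟩ := exists_surjective_nat Kˣ
  obtain ⟨e⟩ : Nonempty (Nat.Primes ≃ ℕ) := nonempty_equiv_of_countable
  let G : Nat.Primes → Kˣ := fun p => g (e p)
  have hG : ∀ k, ∃ p, G p = k := by
    intro k
    obtain ⟨n, hn⟩ := hg k
    exact ⟨e.symm n, by simp [G, hn]⟩
  have hfin : ∀ q : ℚ, q ≠ 0 →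
      (Function.mulSupport (fun p : Nat.Primes => (G p) ^ (padicValRat (p : ℕ) q))).Finite := by
    intro q hq
    refine (finite_val hq).subset ?_
    intro p hp
    rw [Function.mem_mulSupport] at hp
    intro h0
    apply hp
    rw [h0, zpow_zero]
  let φ0 : ℚ → K := fun q => if q = 0 then 0 else
    ((∏ᶠ p : Nat.Primes, (G p) ^ (padicValRat (p : ℕ) q) : Kˣ) : K)
  have hφ : ∀ q : ℚ, q ≠ 0 → φ0 q =
      ((∏ᶠ p : Nat.Primes, (G p) ^ (padicValRat (p : ℕ) q) : Kˣ) : K) := by
    intro q hq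
    simp only [φ0]
    rw [if_neg hq]
  let φ : ℚ →*₀ K :=
    { toFun := φ0
      map_zero' := by simp [φ0]
      map_one' := by
        rw [hφ 1 one_ne_zero]
        have : (fun p : Nat.Primes => (G p) ^ (padicValRat (p : ℕ) 1)) = fun _ => 1 := by
          funext p
          rw [padicValRat.one, zpow_zero]
        rw [this, finprod_one, Units.val_one]
      map_mul' := by
        intro a b
        by_cases ha : a = 0
        · simp [φ0, ha]
        by_cases hb : b = 0
        · simp [φ0, hb]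
        rw [hφ _ (mul_ne_zero ha hb), hφ a ha, hφ b hb, ← Units.val_mul,
          ← finprod_mul_distrib (hfin a ha) (hfin b hb)]
        congr 2
        funext p
        have hp : Fact (p : ℕ).Prime := ⟨p.2⟩
        rw [padicValRat.mul ha hb, zpow_add] }
  refine ⟨φ, ?_⟩
  intro k
  by_cases hk : k = 0
  · exact ⟨0, by rw [hk, map_zero]⟩
  · obtain ⟨p, hp⟩ := hG (Units.mk0 k hk)
    have hpp : Fact (p : ℕ).Prime := ⟨p.2⟩
    have hp0 : ((p : ℕ) : ℚ) ≠ 0 := by exact_mod_cast p.2.ne_zero
    refine ⟨((p : ℕ) : ℚ), ?_⟩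
    show φ0 _ = k
    rw [hφ _ hp0, finprod_eq_single _ p]
    · rw [hp, padicValRat.self p.2.one_lt, zpow_one, Units.val_mk0]
    · intro r hr
      have hrr : Fact (r : ℕ).Prime := ⟨r.2⟩
      have h1 : padicValRat (r : ℕ) ((p : ℕ) : ℚ) = 0 := by
        rw [padicValRat.of_nat]
        have h2 : (r : ℕ) ≠ (p : ℕ) := fun h => hr (Subtype.ext h)
        rw [padicValNat_primes h2]
        rfl
      rw [h1, zpow_zero]

end Pool.Agent.Y467.TF
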